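import Pool.Agent.Q123.NW.Words

/-!
# Homogeneous components, and infinite fields
-/

set_option autoImplicit false

open Finset

namespace Q123.NW

variable {K σ : Type} [Field K]

/-- Change of the base ring. -/
lemma ev_map {R R' : Type} [CommRing R] [CommRing R'] [Algebra K R] [Algebra K R'] {k : ℕ}
    (E : R →ₐ[K] R') (c : List σ →₀ K) (X : σ → Matrix (Fin k) (Fin k) R) :
    ev c (fun i => E.mapMatrix (X i)) = E.mapMatrix (ev c X) := by
  unfold ev
  rw [Finsupp.sum, Finsupp.sum, map_sum]
  refine Finset.sum_congr rfl fun w _ => ?_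
  rw [map_smul, map_list_prod, List.map_map]
  rfl

/-- Over an infinite field it is enough to look at matrices over the field. -/
lemma van_of_field [Infinite K] {k : ℕ} (c : List σ →₀ K)
    (h : ∀ X : σ → Matrix (Fin k) (Fin k) K, Upper X → ev c X = 0) : Van k c := by
  classical
  let ι := σ × Fin k × Fin k
  let G : σ → Matrix (Fin k) (Fin k) (MvPolynomial ι K) := fun i =>
    Matrix.of fun a b => if b < a then 0 else MvPolynomial.X (i, a, b)
  have hG : ev c G = 0 := by
    refine Matrix.ext fun a b => ?_
    rw [Matrix.zero_apply]
    apply MvPolynomial.funext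
    intro x
    have h1 := ev_map (MvPolynomial.aeval x : MvPolynomial ι K →ₐ[K] K) c G
    have h2 : Upper (fun i => (MvPolynomial.aeval x : MvPolynomial ι K →ₐ[K] K).mapMatrix (G i)) := by
      intro i p q hpq
      simp [G, hpq]
    rw [h _ h2] at h1
    have h3 := congrFun (congrFun h1 a) b
    rw [Matrix.zero_apply, AlgHom.mapMatrix_apply, Matrix.map_apply] at h3
    rw [map_zero]
    exact h3.symm
  intro R _ _ X hX
  let E : MvPolynomial ι K →ₐ[K] R := MvPolynomial.aeval fun t => X t.1 t.2.1 t.2.2
  have h4 : X = fun i => E.mapMatrix (G i) := by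
    funext i
    ext a b
    simp only [AlgHom.mapMatrix_apply, Matrix.map_apply, G, Matrix.of_apply, E]
    split_ifs with hab
    · rw [map_zero, hX i a b hab]
    · rw [MvPolynomial.aeval_X]
  rw [h4, ev_map, hG, map_zero]

/-- The content of a word. -/
noncomputable def content [DecidableEq σ] (w : List σ) : σ →₀ ℕ :=
  Multiset.toFinsupp (w : Multiset σ)

lemma content_eq_iff [DecidableEq σ] (w w' : List σ) : content w = content w' ↔ w.Perm w' := by
  unfold content
  rw [EmbeddingLike.apply_eq_iff_eq, Multiset.coe_eq_coe]

/-- The homogeneous components. -/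
lemma Van.component [DecidableEq σ] {k : ℕ} {c : List σ →₀ K} (hc : Van k c) (s : σ →₀ ℕ) :
    Van k (c.filter fun w => content w = s) := by
  intro R _ _ X hX
  let Y : σ → Matrix (Fin k) (Fin k) (MvPolynomial σ R) := fun i =>
    (MvPolynomial.X i : MvPolynomial σ R) • (X i).map MvPolynomial.C
  have hY : Upper Y := by
    intro i a b hab
    simp only [Y, Matrix.smul_apply, Matrix.map_apply, hX i a b hab, map_zero, smul_zero]
  have hprod : ∀ w : List σ, (w.map Y).prod =
      (MvPolynomial.monomial (content w) (1 : R)) • ((w.map X).prod).map MvPolynomial.C := by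
    intro w
    induction w with
    | nil =>
      refine Matrix.ext fun a b => ?_
      rw [List.map_nil, List.prod_nil, List.map_nil, List.prod_nil, Matrix.smul_apply,
        Matrix.map_apply]
      have h0 : content ([] : List σ) = 0 := by simp [content]
      rw [h0, smul_eq_mul]
      by_cases hab : a = b
      · subst hab
        rw [Matrix.one_apply_eq, Matrix.one_apply_eq, MvPolynomial.C_1, mul_one]
        rfl
      · rw [Matrix.one_apply_ne hab, Matrix.one_apply_ne hab, map_zero, mul_zero]
    | cons i w ih =>
      rw [List.map_cons, List.prod_cons, ih, List.map_cons, List.prod_cons]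
      have h1 : content (i :: w) = Finsupp.single i 1 + content w := by
        unfold content
        rw [← Multiset.cons_coe, ← Multiset.singleton_add, map_add, Multiset.toFinsupp_singleton]
      have h2 : (MvPolynomial.monomial (content (i :: w)) (1 : R)) =
          MvPolynomial.X i * MvPolynomial.monomial (content w) 1 := by
        rw [h1, MvPolynomial.X, MvPolynomial.monomial_mul, one_mul]
      rw [h2, Matrix.map_mul]
      simp only [Y]
      rw [Matrix.smul_mul, Matrix.mul_smul, smul_smul]
  have h1 := hc (MvPolynomial σ R) Y hY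
  ext a b
  have h2 := congrFun (congrFun h1 a) b
  rw [Matrix.zero_apply] at h2 ⊢
  have h3 := congrArg (MvPolynomial.coeff s) h2
  rw [MvPolynomial.coeff_zero] at h3
  rw [← h3]
  unfold ev
  rw [Finsupp.sum, Finsupp.sum, Matrix.sum_apply, Matrix.sum_apply, MvPolynomial.coeff_sum]
  rw [Finsupp.support_filter, Finset.sum_filter]
  refine Finset.sum_congr rfl fun w _ => ?_
  have h4 : (c w • (w.map Y).prod) a b =
      c w • (MvPolynomial.monomial (content w) ((w.map X).prod a b)) := by
    rw [hprod, Matrix.smul_apply, Matrix.smul_apply, Matrix.map_apply, smul_eq_mul, mul_comm,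
      MvPolynomial.C_mul_monomial, mul_one]
  rw [h4, MvPolynomial.coeff_smul, MvPolynomial.coeff_monomial]
  by_cases hw : content w = s
  · rw [if_pos hw, if_pos hw, Finsupp.filter_apply_pos (fun w => content w = s) c (a := w) hw,
      Matrix.smul_apply]
  · rw [if_neg hw, if_neg hw, smul_zero]

/-- Every word that occurs has at least `2 ^ k` rearrangements that occur. -/
theorem Van.rearrangements [DecidableEq σ] {k : ℕ} {c : List σ →₀ K} (hc : Van k c) (l : List σ)
    (hl : c l ≠ 0) : 2 ^ k ≤ {l' : List σ | l'.Perm l ∧ c l' ≠ 0}.ncard := by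
  have h1 := hc.component (content l)
  have h2 : c.filter (fun w => content w = content l) ≠ 0 := by
    intro h
    have h3 := DFunLike.congr_fun h l
    rw [Finsupp.filter_apply_pos (fun w => content w = content l) c (a := l) rfl,
      Finsupp.zero_apply] at h3
    exact hl h3
  refine (Van.card k _ h1 h2).trans (le_of_eq ?_)
  rw [← Set.ncard_coe_finset]
  congr 1
  ext w
  simp only [Finsupp.support_filter, coe_filter, Finsupp.mem_support_iff, Set.mem_ofPred_eq,
    content_eq_iff]
  exact and_comm

end Q123.NW
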