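import Pool.Agent.Q123.NW.Comp

/-!
# Polynomials in the free algebra
-/

set_option autoImplicit false

open Finset

namespace Q123.NW

variable {K σ : Type} [Field K]

/-- The coefficient of the word `l` in `f`. -/
noncomputable def coef (f : FreeAlgebra K σ) (l : List σ) : K :=
  (FreeAlgebra.equivMonoidAlgebraFreeMonoid f).coeff (FreeMonoid.ofList l)

/-- The polynomial as a combination of words. -/
noncomputable def words (f : FreeAlgebra K σ) : List σ →₀ K :=
  Finsupp.mapDomain FreeMonoid.toList (FreeAlgebra.equivMonoidAlgebraFreeMonoid f).coeff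

lemma words_apply (f : FreeAlgebra K σ) (l : List σ) : words f l = coef f l := by
  unfold words coef
  have : l = FreeMonoid.toList (FreeMonoid.ofList l) := rfl
  conv_lhs => rw [this]
  rw [Finsupp.mapDomain_apply FreeMonoid.toList.injective]

lemma lift_symm_single {A : Type} [Ring A] [Algebra K A] (Y : σ → A) (w : FreeMonoid σ) (c : K) :
    FreeAlgebra.lift K Y (FreeAlgebra.equivMonoidAlgebraFreeMonoid.symm
      (MonoidAlgebra.single w c)) = c • ((FreeMonoid.toList w).map Y).prod := by
  have h1 : FreeAlgebra.equivMonoidAlgebraFreeMonoid.symm (MonoidAlgebra.single w c) =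
      c • FreeMonoid.lift (FreeAlgebra.ι K) w := by
    show MonoidAlgebra.lift K (FreeAlgebra K σ) (FreeMonoid σ) (FreeMonoid.lift (FreeAlgebra.ι K))
      (MonoidAlgebra.single w c) = _
    rw [MonoidAlgebra.lift_single]
  rw [h1, map_smul, FreeMonoid.lift_apply, map_list_prod, List.map_map]
  congr 3
  funext i
  simp

lemma lift_eq_ev {R : Type} [CommRing R] [Algebra K R] {k : ℕ} (f : FreeAlgebra K σ)
    (X : σ → Matrix (Fin k) (Fin k) R) : FreeAlgebra.lift K X f = ev (words f) X := by
  classical
  obtain ⟨g, rfl⟩ := (FreeAlgebra.equivMonoidAlgebraFreeMonoid (R := K) (X := σ)).symm.surjective f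
  unfold words ev
  rw [AlgEquiv.apply_symm_apply]
  induction g using MonoidAlgebra.induction_linear with
  | zero => simp
  | add g h hg hh =>
    rw [map_add, map_add, hg, hh, MonoidAlgebra.coeff_add, Finsupp.mapDomain_add,
      Finsupp.sum_add_index']
    · intro w; simp
    · intro w a b; rw [add_smul]
  | single w c =>
    rw [lift_symm_single, MonoidAlgebra.coeff_single, Finsupp.mapDomain_single,
      Finsupp.sum_single_index (by simp)]

/-- Identities of the upper triangular matrices. -/
theorem identity_rearrangements [DecidableEq σ] [Infinite K] (k : ℕ) (f : FreeAlgebra K σ)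
    (h : ∀ X : σ → Matrix (Fin k) (Fin k) K, (∀ i, ∀ a b : Fin k, b < a → X i a b = 0) →
      FreeAlgebra.lift K X f = 0) (l : List σ) (hl : coef f l ≠ 0) :
    2 ^ k ≤ {l' : List σ | l'.Perm l ∧ coef f l' ≠ 0}.ncard := by
  have h1 : Van k (words f) := by
    refine van_of_field _ fun X hX => ?_
    rw [← lift_eq_ev]
    exact h X hX
  have h2 := h1.rearrangements l (by rw [words_apply]; exact hl)
  simpa only [words_apply] using h2

/-- From block triangular matrices of type `(m, 1)` to upper triangular matrices. -/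
lemma upper_of_blocks {m : ℕ} (f : FreeAlgebra K σ) (c : K)
    (h : (∀ (A : σ → Matrix (Fin m) (Fin m) K) (A' : σ → Matrix (Fin 1) (Fin 1) K)
        (B : σ → Matrix (Fin m) (Fin 1) K),
        FreeAlgebra.lift K (fun i => Matrix.fromBlocks (A i) (B i) 0 (A' i)) f =
          Matrix.scalar (Fin m ⊕ Fin 1) c) ∨
      (∀ (A : σ → Matrix (Fin m) (Fin m) K) (A' : σ → Matrix (Fin 1) (Fin 1) K)
        (C : σ → Matrix (Fin 1) (Fin m) K),
        FreeAlgebra.lift K (fun i => Matrix.fromBlocks (A i) 0 (C i) (A' i)) f =
          Matrix.scalar (Fin m ⊕ Fin 1) c))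
    (X : σ → Matrix (Fin (m + 1)) (Fin (m + 1)) K)
    (hX : ∀ i, ∀ a b : Fin (m + 1), b < a → X i a b = 0) :
    FreeAlgebra.lift K X f = algebraMap K _ c := by
  classical
  -- a general transport
  have key : ∀ (e : Fin m ⊕ Fin 1 ≃ Fin (m + 1)),
      FreeAlgebra.lift K (fun i => (X i).submatrix e e) f = Matrix.scalar (Fin m ⊕ Fin 1) c →
      FreeAlgebra.lift K X f = algebraMap K _ c := by
    intro e he
    let E := Matrix.reindexAlgEquiv K K e.symm
    have h1 : (E : _ →ₐ[K] _).comp (FreeAlgebra.lift K X) =
        FreeAlgebra.lift K (fun i => (X i).submatrix e e) := by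
      apply FreeAlgebra.hom_ext
      funext i
      simp [E]
    have h2 : E (FreeAlgebra.lift K X f) = Matrix.scalar (Fin m ⊕ Fin 1) c := by
      rw [← he, ← h1]
      rfl
    apply E.injective
    rw [h2, AlgEquiv.commutes]
    rfl
  rcases h with h | h
  · refine key finSumFinEquiv ?_
    rw [← h (fun i => ((X i).submatrix finSumFinEquiv finSumFinEquiv).toBlocks₁₁)
      (fun i => ((X i).submatrix finSumFinEquiv finSumFinEquiv).toBlocks₂₂)
      (fun i => ((X i).submatrix finSumFinEquiv finSumFinEquiv).toBlocks₁₂)]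
    congr 2
    funext i
    conv_lhs => rw [← Matrix.fromBlocks_toBlocks ((X i).submatrix finSumFinEquiv finSumFinEquiv)]
    congr 1
    refine Matrix.ext fun a b => ?_
    rw [Matrix.toBlocks₂₁, Matrix.of_apply, Matrix.submatrix_apply, Matrix.zero_apply]
    apply hX
    rw [finSumFinEquiv_apply_left, finSumFinEquiv_apply_right]
    rw [Fin.lt_def]
    simp
  · let e : Fin m ⊕ Fin 1 ≃ Fin (m + 1) :=
      (Equiv.sumComm _ _).trans (finSumFinEquiv.trans (finCongr (Nat.add_comm 1 m)))
    refine key e ?_
    rw [← h (fun i => ((X i).submatrix e e).toBlocks₁₁) (fun i => ((X i).submatrix e e).toBlocks₂₂)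
      (fun i => ((X i).submatrix e e).toBlocks₂₁)]
    congr 2
    funext i
    conv_lhs => rw [← Matrix.fromBlocks_toBlocks ((X i).submatrix e e)]
    congr 1
    refine Matrix.ext fun a b => ?_
    rw [Matrix.toBlocks₁₂, Matrix.of_apply, Matrix.submatrix_apply, Matrix.zero_apply]
    apply hX
    rw [Fin.lt_def]
    simp [e]

end Q123.NW
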