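import Pool.Agent.Q123.NW.Free

/-!
# Combinations of products of polynomials in disjoint variables
-/

set_option autoImplicit false

open Finset Polynomial

namespace Q123.NW

variable {K τ : Type} [Field K]

/-- Every letter `i` of the word is repeated `d i` times. -/
def stretch (d : τ → ℕ) (w : List τ) : List τ := w.flatMap fun i => List.replicate (d i) i

lemma stretch_cons (d : τ → ℕ) (i : τ) (w : List τ) :
    stretch d (i :: w) = List.replicate (d i) i ++ stretch d w := by
  simp [stretch]

lemma stretch_injective (d : τ → ℕ) (hd : ∀ i, 1 ≤ d i) : Function.Injective (stretch d) := by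
  intro w
  induction w with
  | nil =>
    intro v hv
    cases v with
    | nil => rfl
    | cons j v =>
      rw [stretch_cons] at hv
      obtain ⟨m, hm⟩ : ∃ m, d j = m + 1 := ⟨d j - 1, by have := hd j; omega⟩
      rw [hm, List.replicate_succ] at hv
      simp [stretch] at hv
  | cons i w ih =>
    intro v hv
    cases v with
    | nil =>
      rw [stretch_cons] at hv
      obtain ⟨m, hm⟩ : ∃ m, d i = m + 1 := ⟨d i - 1, by have := hd i; omega⟩
      rw [hm, List.replicate_succ] at hv
      simp [stretch] at hv
    | cons j v =>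
      rw [stretch_cons, stretch_cons] at hv
      obtain ⟨m, hm⟩ : ∃ m, d i = m + 1 := ⟨d i - 1, by have := hd i; omega⟩
      obtain ⟨m', hm'⟩ : ∃ m, d j = m + 1 := ⟨d j - 1, by have := hd j; omega⟩
      have h1 : i = j := by
        rw [hm, hm', List.replicate_succ, List.replicate_succ, List.cons_append,
          List.cons_append] at hv
        exact (List.cons.inj hv).1
      subst h1
      rw [ih (List.append_cancel_left hv)]

/-- The weight of a word. -/
def wt (d : τ → ℕ) (w : List τ) : ℕ := (w.map d).sum

section top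
variable {R : Type} [CommRing R] {k : ℕ}

/-- `T` is the coefficient of `X ^ D` in the matrix `M` of polynomials of degree at most `D`. -/
def Top (M : Matrix (Fin k) (Fin k) R[X]) (D : ℕ) (T : Matrix (Fin k) (Fin k) R) : Prop :=
  (∀ a b, (M a b).natDegree ≤ D) ∧ ∀ a b, (M a b).coeff D = T a b

lemma Top.one : Top (1 : Matrix (Fin k) (Fin k) R[X]) 0 1 := by
  constructor
  · intro a b
    by_cases hab : a = b
    · subst hab; rw [Matrix.one_apply_eq]; simp
    · rw [Matrix.one_apply_ne hab]; simp
  · intro a b
    by_cases hab : a = b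
    · subst hab; rw [Matrix.one_apply_eq, Matrix.one_apply_eq]; simp
    · rw [Matrix.one_apply_ne hab, Matrix.one_apply_ne hab]; simp

lemma Top.mul {M M' : Matrix (Fin k) (Fin k) R[X]} {D D' : ℕ} {T T' : Matrix (Fin k) (Fin k) R}
    (h : Top M D T) (h' : Top M' D' T') : Top (M * M') (D + D') (T * T') := by
  constructor
  · intro a b
    rw [Matrix.mul_apply]
    refine natDegree_sum_le_of_forall_le _ _ fun c _ => ?_
    exact natDegree_mul_le.trans (Nat.add_le_add (h.1 a c) (h'.1 c b))
  · intro a b
    rw [Matrix.mul_apply, Matrix.mul_apply, finsetSum_coeff]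
    refine Finset.sum_congr rfl fun c _ => ?_
    rw [coeff_mul_add_eq_of_natDegree_le (h.1 a c) (h'.1 c b), h.2, h'.2]

variable [Algebra K R]

lemma Top.aeval (Z : Matrix (Fin k) (Fin k) R) (H : K[X]) :
    Top (Polynomial.aeval ((X : R[X]) • Z.map C) H) H.natDegree
      (H.leadingCoeff • Z ^ H.natDegree) := by
  have hpow : ∀ j : ℕ, ((X : R[X]) • Z.map C) ^ j = (X ^ j : R[X]) • (Z ^ j).map C := by
    intro j
    rw [_root_.smul_pow]
    congr 1
    induction j with
    | zero =>
      refine Matrix.ext fun a b => ?_
      by_cases hab : a = b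
      · subst hab; simp
      · simp [Matrix.one_apply_ne hab]
    | succ j ih => rw [pow_succ, pow_succ, ih, Matrix.map_mul]
  have hentry : ∀ a b, (Polynomial.aeval ((X : R[X]) • Z.map C) H) a b =
      ∑ j ∈ range (H.natDegree + 1), H.coeff j • (C ((Z ^ j) a b) * X ^ j) := by
    intro a b
    rw [aeval_eq_sum_range, Matrix.sum_apply]
    refine Finset.sum_congr rfl fun j _ => ?_
    rw [Matrix.smul_apply, hpow, Matrix.smul_apply, Matrix.map_apply, smul_eq_mul, mul_comm]
  constructor
  · intro a b
    rw [hentry]
    refine natDegree_sum_le_of_forall_le _ _ fun j hj => ?_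
    refine (natDegree_smul_le _ _).trans ((natDegree_C_mul_X_pow_le _ _).trans ?_)
    rw [mem_range] at hj
    omega
  · intro a b
    rw [hentry, finsetSum_coeff, Finset.sum_eq_single H.natDegree]
    · rw [coeff_smul, coeff_C_mul_X_pow, if_pos rfl, Matrix.smul_apply]
      rfl
    · intro j _ hj
      rw [coeff_smul, coeff_C_mul_X_pow, if_neg (Ne.symm hj), smul_zero]
    · intro h
      exact absurd (mem_range.2 (Nat.lt_succ_self _)) h

lemma Top.word (Z : τ → Matrix (Fin k) (Fin k) R) (H : τ → K[X]) (w : List τ) :
    Top ((w.map fun i => Polynomial.aeval ((X : R[X]) • (Z i).map C) (H i)).prod)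
      (wt (fun i => (H i).natDegree) w)
      ((w.map fun i => (H i).leadingCoeff).prod •
        ((stretch (fun i => (H i).natDegree) w).map Z).prod) := by
  induction w with
  | nil =>
    simp only [List.map_nil, List.prod_nil, wt, List.sum_nil, stretch, List.flatMap_nil, one_smul]
    exact Top.one
  | cons i w ih =>
    have h := (Top.aeval (Z i) (H i)).mul ih
    rw [List.map_cons, List.prod_cons, List.map_cons, List.prod_cons, stretch_cons,
      List.map_append, List.prod_append, List.map_replicate, List.prod_replicate]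
    have h1 : wt (fun i => (H i).natDegree) (i :: w) =
        (H i).natDegree + wt (fun i => (H i).natDegree) w := by
      simp [wt]
    rw [h1]
    have h2 : ((H i).leadingCoeff * (w.map fun i => (H i).leadingCoeff).prod) •
        (Z i ^ (H i).natDegree * ((stretch (fun i => (H i).natDegree) w).map Z).prod) =
        ((H i).leadingCoeff • Z i ^ (H i).natDegree) *
          ((w.map fun i => (H i).leadingCoeff).prod •
            ((stretch (fun i => (H i).natDegree) w).map Z).prod) := by
      rw [Matrix.smul_mul, Matrix.mul_smul, smul_smul]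
    rw [h2]
    exact h

end top

/-- The main lemma: a combination of products of one-variable polynomials that vanishes on the
upper triangular matrices. -/
theorem card_of_subst (k : ℕ) (c : List τ →₀ K) (H : τ → K[X]) (hH : ∀ i, 1 ≤ (H i).natDegree)
    (hc : ∀ (R : Type) [CommRing R] [Algebra K R] (Z : τ → Matrix (Fin k) (Fin k) R), Upper Z →
      ev c (fun i => Polynomial.aeval (Z i) (H i)) = 0) (w₀ : List τ) (hw₀ : w₀ ≠ [])
    (hcw : c w₀ ≠ 0) : 2 ^ k ≤ {w : List τ | w ≠ [] ∧ c w ≠ 0}.ncard := by
  classical
  set d : τ → ℕ := fun i => (H i).natDegree with hd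
  have hmem : w₀ ∈ c.support := Finsupp.mem_support_iff.2 hcw
  obtain ⟨w₁, hw₁, hmax⟩ := Finset.exists_max_image c.support (wt d) ⟨w₀, hmem⟩
  set D := wt d w₁ with hD
  have hwt0 : ∀ w : List τ, w ≠ [] → 1 ≤ wt d w := by
    intro w hw
    cases w with
    | nil => exact absurd rfl hw
    | cons i w =>
      have h1 := hH i
      simp only [wt, List.map_cons, List.sum_cons, hd]
      omega
  have hD1 : 1 ≤ D := (hwt0 w₀ hw₀).trans (hmax w₀ hmem)
  set S := c.support.filter (fun w => wt d w = D) with hS
  let lam : List τ → K := fun w => (w.map fun i => (H i).leadingCoeff).prod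
  have hlam : ∀ w, lam w ≠ 0 := by
    intro w
    simp only [lam]
    apply List.prod_ne_zero
    intro h
    rw [List.mem_map] at h
    obtain ⟨i, -, hi⟩ := h
    have h1 := hH i
    rw [leadingCoeff_eq_zero] at hi
    rw [hi] at h1
    simp at h1
  let c₂ : List τ →₀ K := ∑ w ∈ S, Finsupp.single (stretch d w) (c w * lam w)
  have hinj := stretch_injective d hH
  have hc₂ : ∀ w ∈ S, c₂ (stretch d w) = c w * lam w := by
    intro w hw
    simp only [c₂]
    rw [Finsupp.finsetSum_apply, Finset.sum_eq_single w]
    · rw [Finsupp.single_eq_same]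
    · intro v _ hv
      rw [Finsupp.single_eq_of_ne]
      intro h
      exact hv (hinj h.symm)
    · intro h; exact absurd hw h
  have hw₁S : w₁ ∈ S := mem_filter.2 ⟨hw₁, rfl⟩
  have hne : c₂ ≠ 0 := by
    intro h
    have h1 := hc₂ w₁ hw₁S
    rw [h, Finsupp.zero_apply] at h1
    exact mul_ne_zero (Finsupp.mem_support_iff.1 hw₁) (hlam w₁) h1.symm
  have hevadd : ∀ {R : Type} [CommRing R] [Algebra K R] (Z : τ → Matrix (Fin k) (Fin k) R),
      ev c₂ Z = ∑ w ∈ S, (c w * lam w) • ((stretch d w).map Z).prod := by
    intro R _ _ Z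
    simp only [c₂]
    unfold ev
    rw [← Finsupp.sum_finsetSum_index]
    · refine Finset.sum_congr rfl fun w _ => ?_
      rw [Finsupp.sum_single_index (by simp)]
    · intro w; simp
    · intro w a b; rw [add_smul]
  have hvan : Van k c₂ := by
    intro R _ _ Z hZ
    have h1 := hc R[X] (fun i => (X : R[X]) • (Z i).map C) (by
      intro i a b hab
      change ((X : R[X]) • (Z i).map C) a b = 0
      rw [Matrix.smul_apply, Matrix.map_apply, hZ i a b hab, map_zero, smul_zero])
    rw [hevadd]
    refine Matrix.ext fun a b => ?_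
    have h2 := congrArg (fun M : Matrix (Fin k) (Fin k) R[X] => (M a b).coeff D) h1
    simp only [Matrix.zero_apply, coeff_zero] at h2
    unfold ev at h2
    rw [Finsupp.sum, Matrix.sum_apply, finsetSum_coeff] at h2
    rw [Matrix.zero_apply, ← h2, Matrix.sum_apply, hS, Finset.sum_filter]
    refine Finset.sum_congr rfl fun w hw => ?_
    have h3 := Top.word Z H w
    set M : Matrix (Fin k) (Fin k) R[X] :=
      (w.map fun i => Polynomial.aeval ((X : R[X]) • (Z i).map C) (H i)).prod with hM
    have h10 : ((c w • M) a b).coeff D = c w • (M a b).coeff D := by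
      rw [Matrix.smul_apply, coeff_smul]
    rw [h10]
    split_ifs with h4
    · have h5 := h3.2 a b
      change (M a b).coeff (wt d w) = _ at h5
      rw [h4] at h5
      rw [h5, Matrix.smul_apply, Matrix.smul_apply, smul_smul]
    · have h5 := h3.1 a b
      have h6 : wt d w < D := lt_of_le_of_ne (hmax w hw) h4
      rw [coeff_eq_zero_of_natDegree_lt (lt_of_le_of_lt h5 h6), smul_zero]
  have h7 := Van.card k c₂ hvan hne
  have h8 : c₂.support ⊆ S.image (stretch d) := by
    intro u hu
    rw [Finsupp.mem_support_iff] at hu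
    by_contra h9
    apply hu
    simp only [c₂]
    rw [Finsupp.finsetSum_apply]
    refine Finset.sum_eq_zero fun w hw => ?_
    rw [Finsupp.single_eq_of_ne]
    intro h
    exact h9 (mem_image.2 ⟨w, hw, h.symm⟩)
  have h9 : S.card ≤ {w : List τ | w ≠ [] ∧ c w ≠ 0}.ncard := by
    rw [← Set.ncard_coe_finset]
    apply Set.ncard_le_ncard
    · intro w hw
      rw [mem_coe, hS, mem_filter, Finsupp.mem_support_iff] at hw
      refine ⟨?_, hw.1⟩
      rintro rfl
      have : wt d ([] : List τ) = 0 := rfl
      omega
    · exact (Finset.finite_toSet c.support).subset (fun w hw => by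
        rw [mem_coe, Finsupp.mem_support_iff]; exact hw.2)
  exact (h7.trans (Finset.card_le_card h8)).trans (Finset.card_image_le.trans h9)

end Q123.NW
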