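import Pool.Agent.Q123.NW.Products

/-!
# Substitution of polynomials in disjoint variables
-/

set_option autoImplicit false

open Finset Polynomial

namespace Q123.NW

variable {K τ : Type} [Field K] {σ : τ → Type}

/-- `f` with the polynomials `h i`, in pairwise disjoint sets of variables, substituted. -/
noncomputable def subst (f : FreeAlgebra K τ) (h : ∀ i, FreeAlgebra K (σ i)) :
    FreeAlgebra K (Σ i, σ i) :=
  FreeAlgebra.lift K
    (fun i => FreeAlgebra.lift K (fun s : σ i => FreeAlgebra.ι K (⟨i, s⟩ : Σ i, σ i)) (h i)) f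

lemma lift_comp {A B : Type} [Ring A] [Algebra K A] [Ring B] [Algebra K B] {σ' : Type}
    (E : A →ₐ[K] B) (X : σ' → A) (f : FreeAlgebra K σ') :
    E (FreeAlgebra.lift K X f) = FreeAlgebra.lift K (fun i => E (X i)) f := by
  have h : E.comp (FreeAlgebra.lift K X) = FreeAlgebra.lift K (fun i => E (X i)) := by
    apply FreeAlgebra.hom_ext
    funext i
    simp
  rw [← h]
  rfl

lemma lift_subst {A : Type} [Ring A] [Algebra K A] (X : (Σ i, σ i) → A) (f : FreeAlgebra K τ)
    (h : ∀ i, FreeAlgebra K (σ i)) :
    FreeAlgebra.lift K X (subst f h) =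
      FreeAlgebra.lift K (fun i => FreeAlgebra.lift K (fun s => X ⟨i, s⟩) (h i)) f := by
  unfold subst
  rw [lift_comp]
  congr 2
  funext i
  rw [lift_comp]
  congr 2
  funext s
  rw [FreeAlgebra.lift_ι_apply]

/-- A constant polynomial. -/
lemma eq_const {σ' : Type} (f : FreeAlgebra K σ') (h : ∀ l : List σ', l ≠ [] → coef f l = 0) :
    f = algebraMap K (FreeAlgebra K σ') (coef f []) := by
  apply FreeAlgebra.equivMonoidAlgebraFreeMonoid.injective
  rw [AlgEquiv.commutes]
  have h1 : (FreeAlgebra.equivMonoidAlgebraFreeMonoid f).coeff =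
      (algebraMap K (MonoidAlgebra K (FreeMonoid σ')) (coef f [])).coeff := by
    classical
    ext w
    simp only [MonoidAlgebra.coe_algebraMap, Function.comp_apply, MonoidAlgebra.coeff_single,
      Finsupp.single_apply]
    split_ifs with hw
    · rw [← hw]
      rfl
    · exact h (FreeMonoid.toList w) (fun h => hw (by
        have : w = FreeMonoid.ofList (FreeMonoid.toList w) := rfl
        rw [this, h]; rfl))
  exact MonoidAlgebra.coeff_injective h1

/-- The main theorem on substitutions. -/
theorem card_of_subst_free [Infinite K] (n : ℕ) (f : FreeAlgebra K τ)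
    (h : ∀ i, FreeAlgebra K (σ i))
    (hh : ∀ i, ∃ x y : σ i → K, FreeAlgebra.lift K x (h i) ≠ FreeAlgebra.lift K y (h i)) (c : K)
    (hF : ∀ X : (Σ i, σ i) → Matrix (Fin n) (Fin n) K,
      (∀ i, ∀ a b : Fin n, b < a → X i a b = 0) →
      FreeAlgebra.lift K X (subst f h) = algebraMap K _ c)
    (w₀ : List τ) (hw₀ : w₀ ≠ []) (hfw : coef f w₀ ≠ 0) :
    2 ^ n ≤ {w : List τ | w ≠ [] ∧ coef f w ≠ 0}.ncard := by
  classical
  choose x y hxy using hh
  let L : ∀ i, σ i → K[X] := fun i s => C (x i s) + C (y i s - x i s) * X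
  let H : τ → K[X] := fun i => FreeAlgebra.lift K (L i) (h i)
  have hHdeg : ∀ i, 1 ≤ (H i).natDegree := by
    intro i
    by_contra hlt
    have h0 : (H i).natDegree = 0 := by omega
    obtain ⟨a, ha⟩ := natDegree_eq_zero.1 h0
    have hev : ∀ t : K, (H i).eval t = FreeAlgebra.lift K (fun s => (L i s).eval t) (h i) := by
      intro t
      have h1 := lift_comp (Polynomial.aeval t : K[X] →ₐ[K] K) (L i) (h i)
      simp only [Polynomial.coe_aeval_eq_eval] at h1
      exact h1
    have e0 := hev 0
    have e1 := hev 1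
    have f0 : (fun s => (L i s).eval 0) = x i := by
      funext s; simp [L]
    have f1 : (fun s => (L i s).eval 1) = y i := by
      funext s; simp [L]
    rw [f0, ← ha, eval_C] at e0
    rw [f1, ← ha, eval_C] at e1
    exact hxy i (e0.symm.trans e1)
  -- the values
  have hval : ∀ {R : Type} [CommRing R] [Algebra K R] (Z : τ → Matrix (Fin n) (Fin n) R) (i : τ),
      Polynomial.aeval (Z i) (H i) = FreeAlgebra.lift K
        (fun s => algebraMap K (Matrix (Fin n) (Fin n) R) (x i s) + (y i s - x i s) • Z i)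
        (h i) := by
    intro R _ _ Z i
    simp only [H]
    rw [lift_comp]
    congr 2
    funext s
    simp only [L, map_add, aeval_C, map_mul, aeval_X]
    rw [Algebra.smul_def]
  let G : FreeAlgebra K τ := FreeAlgebra.lift K (fun i => Polynomial.aeval (FreeAlgebra.ι K i) (H i))
    f - algebraMap K _ c
  have hGval : ∀ {R : Type} [CommRing R] [Algebra K R] (Z : τ → Matrix (Fin n) (Fin n) R),
      FreeAlgebra.lift K Z G =
        FreeAlgebra.lift K (fun i => Polynomial.aeval (Z i) (H i)) f - algebraMap K _ c := by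
    intro R _ _ Z
    simp only [G]
    rw [map_sub, AlgHom.commutes, lift_comp]
    congr 3
    funext i
    rw [← Polynomial.aeval_algHom_apply, FreeAlgebra.lift_ι_apply]
  have hvanK : ∀ Z : τ → Matrix (Fin n) (Fin n) K, Upper Z → ev (words G) Z = 0 := by
    intro Z hZ
    rw [← lift_eq_ev, hGval, sub_eq_zero]
    let Y : (Σ i, σ i) → Matrix (Fin n) (Fin n) K := fun p =>
      algebraMap K _ (x p.1 p.2) + (y p.1 p.2 - x p.1 p.2) • Z p.1
    have hY : ∀ i, ∀ a b : Fin n, b < a → Y i a b = 0 := by
      intro i a b hab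
      simp only [Y]
      rw [Matrix.add_apply, Matrix.smul_apply, hZ i.1 a b hab, smul_zero, add_zero,
        Matrix.algebraMap_matrix_apply, if_neg (ne_of_gt hab)]
    rw [← hF Y hY, lift_subst]
    congr 2
    funext i
    exact hval Z i
  have hvan : Van n (words G) := van_of_field _ hvanK
  let c' : List τ →₀ K := words f - Finsupp.single [] c
  have hc' : ∀ w : List τ, w ≠ [] → c' w = coef f w := by
    intro w hw
    simp only [c']
    rw [Finsupp.sub_apply, words_apply, Finsupp.single_eq_of_ne hw, sub_zero]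
  have h1 := card_of_subst n c' H hHdeg (by
    intro R _ _ Z hZ
    have h2 := hvan R Z hZ
    rw [← lift_eq_ev, hGval, sub_eq_zero, lift_eq_ev] at h2
    have h3 : ev c' (fun i => Polynomial.aeval (Z i) (H i)) =
        ev (words f) (fun i => Polynomial.aeval (Z i) (H i)) - algebraMap K _ c := by
      simp only [c']
      unfold ev
      rw [Finsupp.sum_sub_index (by intro a b b'; rw [sub_smul]),
        Finsupp.sum_single_index (by simp)]
      congr 1
      rw [List.map_nil, List.prod_nil, Algebra.algebraMap_eq_smul_one]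
    rw [h3, h2, sub_self]) w₀ hw₀ (by rw [hc' w₀ hw₀]; exact hfw)
  refine h1.trans (le_of_eq ?_)
  congr 1
  ext w
  constructor
  · rintro ⟨hw, h2⟩
    exact ⟨hw, by rw [← hc' w hw]; exact h2⟩
  · rintro ⟨hw, h2⟩
    exact ⟨hw, by rw [hc' w hw]; exact h2⟩

end Q123.NW
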