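import Mathlib

/-!
# The number of monomials of a polynomial identity of the upper triangular matrices

A non-zero noncommutative polynomial that vanishes on the upper triangular `k × k` matrices has at
least `2 ^ k` monomials.
-/

set_option autoImplicit false

open Finset

namespace Q123.NW

variable {K σ : Type} [Field K]

/-- The value of the polynomial `c` (a linear combination of words). -/
noncomputable def ev {R : Type} [CommRing R] [Algebra K R] {k : ℕ} (c : List σ →₀ K)
    (X : σ → Matrix (Fin k) (Fin k) R) : Matrix (Fin k) (Fin k) R :=
  c.sum fun w a => a • (w.map X).prod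

/-- `X` is upper triangular. -/
def Upper {R : Type} [CommRing R] {k : ℕ} (X : σ → Matrix (Fin k) (Fin k) R) : Prop :=
  ∀ i, ∀ a b : Fin k, b < a → X i a b = 0

/-- `c` vanishes on the upper triangular matrices over all commutative algebras. -/
def Van (k : ℕ) (c : List σ →₀ K) : Prop :=
  ∀ (R : Type) [CommRing R] [Algebra K R] (X : σ → Matrix (Fin k) (Fin k) R), Upper X → ev c X = 0

/-- The part of `c` that starts with the letter `x`, with `x` deleted. -/
noncomputable def der (x : σ) (c : List σ →₀ K) : List σ →₀ K :=
  c.comapDomain (List.cons x) (List.cons_injective.injOn)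

@[simp] lemma der_apply (x : σ) (c : List σ →₀ K) (v : List σ) : der x c v = c (x :: v) := by
  rw [der, Finsupp.comapDomain_apply]

lemma card_der [DecidableEq σ] (x : σ) (c : List σ →₀ K) :
    (der x c).support.card = (c.support.filter (fun w => w.head? = some x)).card := by
  rw [← Finset.card_image_of_injective (der x c).support (List.cons_injective (a := x))]
  congr 1
  ext w
  simp only [mem_image, mem_filter, Finsupp.mem_support_iff, der_apply]
  constructor
  · rintro ⟨v, hv, rfl⟩
    exact ⟨hv, rfl⟩
  · rintro ⟨hw, hx⟩
    cases w with
    | nil => simp at hx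
    | cons y v =>
      simp only [List.head?_cons, Option.some.injEq] at hx
      subst hx
      exact ⟨v, hw, rfl⟩

section der
variable {R : Type} [CommRing R] [Algebra K R]

/-- If all words start with `x` then `c = x * der x c`. -/
lemma ev_of_head {k : ℕ} (x : σ) (c : List σ →₀ K) (h : ∀ w ∈ c.support, w.head? = some x)
    (X : σ → Matrix (Fin k) (Fin k) R) : ev c X = X x * ev (der x c) X := by
  classical
  have hc : c = Finsupp.mapDomain (List.cons x) (der x c) := by
    ext w
    cases w with
    | nil =>
      have h1 : c [] = 0 := by
        by_contra h2
        have := h [] (Finsupp.mem_support_iff.2 h2)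
        simp at this
      rw [h1, Finsupp.mapDomain_of_notMem_range]
      rintro ⟨v, hv⟩
      simp at hv
    | cons y v =>
      by_cases hy : y = x
      · subst hy
        rw [Finsupp.mapDomain_apply List.cons_injective, der_apply]
      · have h1 : c (y :: v) = 0 := by
          by_contra h2
          have := h _ (Finsupp.mem_support_iff.2 h2)
          simp only [List.head?_cons, Option.some.injEq] at this
          exact hy this
        rw [h1, Finsupp.mapDomain_of_notMem_range]
        rintro ⟨u, hu⟩
        simp only [List.cons.injEq] at hu
        exact hy hu.1.symm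
  conv_lhs => rw [hc]
  unfold ev
  rw [Finsupp.sum_mapDomain_index]
  · rw [Finsupp.sum, Finsupp.sum, Finset.mul_sum]
    refine Finset.sum_congr rfl fun w _ => ?_
    rw [List.map_cons, List.prod_cons, Matrix.mul_smul]
  · intro w; simp
  · intro w a b; rw [add_smul]

end der

/-- Shift: common first letter. -/
lemma Van.shift {k : ℕ} {c : List σ →₀ K} (hc : Van k c) (x : σ)
    (h : ∀ w ∈ c.support, w.head? = some x) : Van k (der x c) := by
  classical
  intro R _ _ X hX
  -- matrices over `R[t]`
  let Y : σ → Matrix (Fin k) (Fin k) (Polynomial R) := fun i =>
    if i = x then Matrix.charmatrix (-(X x)) else (X i).map Polynomial.C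
  have hY : Upper Y := by
    intro i a b hab
    simp only [Y]
    split_ifs with hi
    · rw [Matrix.charmatrix_apply_ne _ _ _ (Ne.symm (ne_of_lt hab))]
      rw [Matrix.neg_apply, hX x a b hab]
      simp
    · rw [Matrix.map_apply, hX i a b hab, map_zero]
  have h1 := hc (Polynomial R) Y hY
  rw [ev_of_head x c h Y] at h1
  have h2 : Y x = Matrix.charmatrix (-(X x)) := by simp [Y]
  rw [h2] at h1
  -- multiply by the adjugate
  have h3 : (Matrix.charpoly (-(X x))) • ev (der x c) Y = 0 := by
    have h4 := congrArg (fun M => (Matrix.charmatrix (-(X x))).adjugate * M) h1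
    simp only [mul_zero] at h4
    rw [← mul_assoc, Matrix.adjugate_mul, Matrix.smul_mul, one_mul] at h4
    exact h4
  have h5 : ev (der x c) Y = 0 := by
    ext a b
    have h6 := congrFun (congrFun h3 a) b
    rw [Matrix.smul_apply, smul_eq_mul, Matrix.zero_apply] at h6
    have h7 := (Matrix.charpoly_monic (-(X x))).mul_right_eq_zero_iff.1 h6
    rw [h7, Matrix.zero_apply]
  -- evaluate at `t = 0`
  let E : Polynomial R →ₐ[R] R := Polynomial.aeval 0
  let E' : Polynomial R →ₐ[K] R := E.restrictScalars K
  have h8 : ∀ i, (E'.mapMatrix (Y i)) = X i := by
    intro i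
    ext a b
    simp only [AlgHom.mapMatrix_apply, Matrix.map_apply, Y, E', E]
    split_ifs with hi
    · subst hi
      by_cases hab : a = b
      · subst hab
        rw [Matrix.charmatrix_apply_eq]
        simp
      · rw [Matrix.charmatrix_apply_ne _ _ _ hab]
        simp
    · simp
  have h9 : ev (der x c) X = E'.mapMatrix (ev (der x c) Y) := by
    unfold ev
    rw [Finsupp.sum, Finsupp.sum, map_sum]
    refine Finset.sum_congr rfl fun w _ => ?_
    rw [map_smul, map_list_prod, List.map_map]
    congr 3
    funext i
    exact (h8 i).symm
  rw [h9, h5, map_zero]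

/-- Branch: from `(k + 1) × (k + 1)` to `k × k`. -/
lemma Van.der {k : ℕ} {c : List σ →₀ K} (hc : Van (k + 1) c) (x : σ) : Van k (der x c) := by
  classical
  intro R _ _ X hX
  -- the first row is arbitrary for the letter `x` and zero for the others
  ext a b
  let Y : σ → Matrix (Fin (k + 1)) (Fin (k + 1)) R := fun i => Matrix.of fun p q =>
    Fin.cases (motive := fun _ => R)
      (Fin.cases (motive := fun _ => R) 0 (fun q' => if i = x ∧ q' = a then 1 else 0) q)
      (fun p' => Fin.cases (motive := fun _ => R) 0 (fun q' => X i p' q') q) p
  have hY00 : ∀ i, Y i 0 0 = 0 := fun i => rfl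
  have hY0s : ∀ i q, Y i 0 (Fin.succ q) = if i = x ∧ q = a then 1 else 0 := fun i q => rfl
  have hYs0 : ∀ i p, Y i (Fin.succ p) 0 = 0 := fun i p => rfl
  have hYss : ∀ i p q, Y i (Fin.succ p) (Fin.succ q) = X i p q := fun i p q => rfl
  have hY : Upper Y := by
    intro i p q hpq
    induction p using Fin.cases with
    | zero => exact absurd hpq (Fin.not_lt_zero _)
    | succ p =>
      induction q using Fin.cases with
      | zero => exact hYs0 i p
      | succ q =>
        rw [hYss]
        exact hX i p q (Fin.succ_lt_succ_iff.1 hpq)
  have hprod : ∀ w : List σ, (∀ p, (w.map Y).prod (Fin.succ p) 0 = 0) ∧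
      ∀ p q, (w.map Y).prod (Fin.succ p) (Fin.succ q) = (w.map X).prod p q := by
    intro w
    induction w with
    | nil =>
      refine ⟨fun p => ?_, fun p q => ?_⟩
      · simp only [List.map_nil, List.prod_nil]
        exact Matrix.one_apply_ne (Fin.succ_ne_zero p)
      · simp only [List.map_nil, List.prod_nil, Matrix.one_apply, Fin.succ_inj]
    | cons i w ih =>
      refine ⟨fun p => ?_, fun p q => ?_⟩
      · rw [List.map_cons, List.prod_cons, Matrix.mul_apply, Fin.sum_univ_succ, hYs0, zero_mul,
          zero_add]
        exact Finset.sum_eq_zero fun q _ => by rw [ih.1, mul_zero]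
      · rw [List.map_cons, List.prod_cons, Matrix.mul_apply, Fin.sum_univ_succ, hYs0, zero_mul,
          zero_add, List.map_cons, List.prod_cons, Matrix.mul_apply]
        exact Finset.sum_congr rfl fun r _ => by rw [hYss, ih.2]
  have hrow : ∀ w : List σ, (w.map Y).prod 0 (Fin.succ b) =
      if w.head? = some x then ((w.tail).map X).prod a b else 0 := by
    intro w
    cases w with
    | nil =>
      simp only [List.map_nil, List.prod_nil, List.head?_nil]
      rw [if_neg (by simp)]
      exact Matrix.one_apply_ne (Fin.succ_ne_zero b).symm
    | cons i w =>
      rw [List.map_cons, List.prod_cons, Matrix.mul_apply, Fin.sum_univ_succ, hY00, zero_mul,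
        zero_add]
      simp only [hY0s, (hprod w).2, List.head?_cons, Option.some.injEq, List.tail_cons]
      by_cases hi : i = x
      · simp [hi]
      · simp [hi]
  have h1 := congrFun (congrFun (hc R Y hY) 0) (Fin.succ b)
  rw [Matrix.zero_apply] at h1
  rw [Matrix.zero_apply, ← h1]
  unfold ev
  rw [Finsupp.sum, Finsupp.sum, Matrix.sum_apply, Matrix.sum_apply]
  simp only [Matrix.smul_apply, hrow, smul_ite, smul_zero]
  rw [← Finset.sum_filter]
  symm
  refine Finset.sum_bij' (fun w _ => w.tail) (fun v _ => x :: v) ?_ ?_ ?_ ?_ ?_
  · intro w hw
    rw [mem_filter, Finsupp.mem_support_iff] at hw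
    rw [Finsupp.mem_support_iff, der_apply]
    cases w with
    | nil => simp at hw
    | cons i w =>
      simp only [List.head?_cons, Option.some.injEq] at hw
      rw [← hw.2]
      exact hw.1
  · intro v hv
    rw [Finsupp.mem_support_iff, der_apply] at hv
    rw [mem_filter, Finsupp.mem_support_iff]
    exact ⟨hv, rfl⟩
  · intro w hw
    rw [mem_filter] at hw
    cases w with
    | nil => simp at hw
    | cons i w =>
      simp only [List.head?_cons, Option.some.injEq] at hw
      rw [hw.2]
      rfl
  · intro v _
    rfl
  · intro w hw
    rw [mem_filter] at hw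
    cases w with
    | nil => simp at hw
    | cons i w =>
      simp only [List.head?_cons, Option.some.injEq] at hw
      rw [der_apply, List.tail_cons, hw.2]

lemma Van.nil {k : ℕ} {c : List σ →₀ K} (hc : Van (k + 1) c) : c [] = 0 := by
  classical
  have h1 := hc K (fun _ => 0) (fun _ _ _ _ => rfl)
  have h2 := congrFun (congrFun h1 0) 0
  unfold ev at h2
  rw [Finsupp.sum, Matrix.sum_apply, Matrix.zero_apply] at h2
  by_contra h3
  rw [Finset.sum_eq_single []] at h2
  · rw [List.map_nil, List.prod_nil, Matrix.smul_apply, Matrix.one_apply_eq, smul_eq_mul,
      mul_one] at h2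
    exact h3 h2
  · intro w _ hw
    cases w with
    | nil => exact absurd rfl hw
    | cons i w => rw [List.map_cons, List.prod_cons, zero_mul, smul_zero, Matrix.zero_apply]
  · intro h4
    exact absurd (Finsupp.mem_support_iff.2 h3) h4

/-- At least `2 ^ k` words. -/
theorem Van.card (k : ℕ) : ∀ (c : List σ →₀ K), Van k c → c ≠ 0 → 2 ^ k ≤ c.support.card := by
  classical
  induction k with
  | zero =>
    intro c _ hc0
    rw [pow_zero]
    exact Finset.card_pos.2 (Finsupp.support_nonempty_iff.2 hc0)
  | succ k ih =>
    have key : ∀ (L : ℕ) (c : List σ →₀ K), Van (k + 1) c → c ≠ 0 →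
        (∀ w ∈ c.support, w.length ≤ L) → 2 ^ (k + 1) ≤ c.support.card := by
      intro L
      induction L with
      | zero =>
        intro c hc hc0 hL
        exfalso
        obtain ⟨w, hw⟩ := Finsupp.support_nonempty_iff.2 hc0
        have h1 : w = [] := List.eq_nil_of_length_eq_zero (Nat.le_zero.1 (hL w hw))
        rw [h1, Finsupp.mem_support_iff] at hw
        exact hw hc.nil
      | succ L ihL =>
        intro c hc hc0 hL
        obtain ⟨w, hw⟩ := Finsupp.support_nonempty_iff.2 hc0
        cases w with
        | nil => exact absurd hc.nil (Finsupp.mem_support_iff.1 hw)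
        | cons x v =>
          by_cases hall : ∀ u ∈ c.support, u.head? = some x
          · have h1 := hc.shift x hall
            have h2 : Q123.NW.der x c ≠ 0 := by
              intro h3
              have h4 := DFunLike.congr_fun h3 v
              rw [der_apply, Finsupp.zero_apply] at h4
              exact Finsupp.mem_support_iff.1 hw h4
            have h3 : (Q123.NW.der x c).support.card = c.support.card := by
              rw [card_der, Finset.filter_true_of_mem hall]
            rw [← h3]
            refine ihL _ h1 h2 ?_
            intro u hu
            rw [Finsupp.mem_support_iff, der_apply] at hu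
            have := hL _ (Finsupp.mem_support_iff.2 hu)
            simpa using this
          · push Not at hall
            obtain ⟨u, hu, hux⟩ := hall
            cases u with
            | nil => exact absurd hc.nil (Finsupp.mem_support_iff.1 hu)
            | cons y u =>
              have hyx : y ≠ x := by
                intro h; apply hux; rw [h]; rfl
              have h1 : Q123.NW.der x c ≠ 0 := by
                intro h3
                have h4 := DFunLike.congr_fun h3 v
                rw [der_apply, Finsupp.zero_apply] at h4
                exact Finsupp.mem_support_iff.1 hw h4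
              have h2 : Q123.NW.der y c ≠ 0 := by
                intro h3
                have h4 := DFunLike.congr_fun h3 u
                rw [der_apply, Finsupp.zero_apply] at h4
                exact Finsupp.mem_support_iff.1 hu h4
              have h3 := ih _ (hc.der x) h1
              have h4 := ih _ (hc.der y) h2
              rw [card_der] at h3 h4
              have h5 : (c.support.filter (fun w => w.head? = some x)).card +
                  (c.support.filter (fun w => w.head? = some y)).card ≤ c.support.card := by
                rw [← Finset.card_union_of_disjoint]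
                · exact Finset.card_le_card (Finset.union_subset (Finset.filter_subset _ _)
                    (Finset.filter_subset _ _))
                · rw [Finset.disjoint_filter]
                  intro w _ h6 h7
                  rw [h6] at h7
                  exact hyx (Option.some.inj h7).symm
              rw [pow_succ]
              omega
    intro c hc hc0
    refine key (c.support.sup List.length) c hc hc0 ?_
    intro w hw
    exact Finset.le_sup (f := List.length) hw

end Q123.NW
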